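import Pool.Agent.Helper57.SS.Goals

/-!
# Project SS, packet KM
-/

set_option autoImplicit false

namespace Pool.Agent.Helper16.SS

open MeasureTheory Filter Topology Pool.Agent.Helper57.SS

theorem gKM : Pool.Agent.Helper57.SS.G_KM := by
  intro hREV hFZ hZP α A m0 μ _ T hE u hu h0 ε hε
  obtain ⟨hanti, hle, -, -, -, -⟩ := hFZ hZP α A T hE
  have hA : Antitone fun n : ℕ => Fz A T (n : ℤ) := fun m n hmn =>
    hanti _ _ (by exact_mod_cast hmn)
  have h1 := hREV α μ (fun n : ℕ => Fz A T (n : ℤ)) hA (hle _) u hu h0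
  have hε' : (0 : ENNReal) < ENNReal.ofReal ε := ENNReal.ofReal_pos.2 hε
  obtain ⟨D, hD⟩ := (h1.eventually (gt_mem_nhds hε')).exists
  refine ⟨D, fun v hv hv1 => ?_⟩
  have hm : Fz A T (D : ℤ) ≤ m0 := hle _
  have hvs : StronglyMeasurable[Fz A T (D : ℤ)] v := hv.stronglyMeasurable
  have hui : Integrable u μ := by
    refine Integrable.mono' (integrable_const (1 : ℝ)) hu.1.aestronglyMeasurable ?_
    exact Filter.Eventually.of_forall fun x => by
      rw [Real.norm_eq_abs]; exact hu.2 x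
  have hvm : AEStronglyMeasurable v μ := (hvs.mono hm).aestronglyMeasurable
  have huv : Integrable (u * v) μ := by
    refine Integrable.mono' hui.norm (hu.1.aestronglyMeasurable.mul hvm) ?_
    refine Filter.Eventually.of_forall fun x => ?_
    rw [Pi.mul_apply, norm_mul]
    have := hv1 x
    rw [← Real.norm_eq_abs] at this
    nlinarith [norm_nonneg (u x), norm_nonneg (v x)]
  have h2 : μ[u * v | Fz A T (D : ℤ)] =ᵐ[μ] μ[u | Fz A T (D : ℤ)] * v :=
    condExp_mul_of_stronglyMeasurable_right hvs huv hui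
  have h3 : ∫ x, u x * v x ∂μ = ∫ x, (μ[u | Fz A T (D : ℤ)]) x * v x ∂μ := by
    have h4 : ∫ x, (μ[u * v | Fz A T (D : ℤ)]) x ∂μ = ∫ x, (u * v) x ∂μ := integral_condExp hm
    have h5 : ∫ x, (μ[u * v | Fz A T (D : ℤ)]) x ∂μ =
        ∫ x, (μ[u | Fz A T (D : ℤ)] * v) x ∂μ := integral_congr_ae h2
    simp only [Pi.mul_apply] at h4 h5
    rw [← h4, h5]
  rw [h3]
  have hci : Integrable (μ[u | Fz A T (D : ℤ)]) μ := integrable_condExp
  have h6 : |∫ x, (μ[u | Fz A T (D : ℤ)]) x * v x ∂μ| ≤ ∫ x, ‖(μ[u | Fz A T (D : ℤ)]) x‖ ∂μ := by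
    rw [← Real.norm_eq_abs]
    refine (norm_integral_le_integral_norm _).trans ?_
    refine integral_mono_of_nonneg (Filter.Eventually.of_forall fun x => norm_nonneg _)
      hci.norm (Filter.Eventually.of_forall fun x => ?_)
    have := hv1 x
    rw [← Real.norm_eq_abs] at this
    simp only [norm_mul]
    nlinarith [norm_nonneg ((μ[u | Fz A T (D : ℤ)]) x), norm_nonneg (v x)]
  refine h6.trans ?_
  rw [integral_norm_eq_lintegral_enorm hci.aestronglyMeasurable, ← eLpNorm_one_eq_lintegral_enorm]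
  refine ENNReal.toReal_le_of_le_ofReal hε.le hD.le

end Pool.Agent.Helper16.SS
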