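import Pool.Agent.Helper57.SS.Goals
import Mathlib.Analysis.InnerProductSpace.MeanErgodic
import Mathlib.Dynamics.Ergodic.Function

/-!
# Project SS, packet VN: the mean ergodic theorem in `L²` for an ergodic map
-/

set_option autoImplicit false

namespace Pool.Agent.Helper16.SS

open MeasureTheory Filter Topology

variable {α : Type} [MeasurableSpace α] {μ : Measure α} [IsProbabilityMeasure μ] {U : α → α}

/-- The Koopman operator. -/
noncomputable def koop (hU : MeasurePreserving U μ μ) : Lp ℝ 2 μ →L[ℝ] Lp ℝ 2 μ :=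
  (Lp.compMeasurePreservingₗᵢ ℝ U hU).toContinuousLinearMap

theorem koop_ae (hU : MeasurePreserving U μ μ) (g : Lp ℝ 2 μ) : koop hU g =ᵐ[μ] g ∘ U :=
  Lp.coeFn_compMeasurePreserving g hU

theorem koop_iter (hU : MeasurePreserving U μ μ) (g : Lp ℝ 2 μ) (m : ℕ) :
    ((koop hU)^[m] g : Lp ℝ 2 μ) =ᵐ[μ] fun x => g (U^[m] x) := by
  induction m with
  | zero => exact Filter.EventuallyEq.rfl
  | succ m ih =>
    rw [Function.iterate_succ_apply']
    have h1 := koop_ae hU ((koop hU)^[m] g)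
    have h2 := hU.quasiMeasurePreserving.ae_eq_comp ih
    filter_upwards [h1, h2] with x hx1 hx2
    rw [hx1, hx2, Function.comp_apply, Function.iterate_succ_apply]

/-- The constant function. -/
noncomputable def cst (μ : Measure α) [IsProbabilityMeasure μ] (c : ℝ) : Lp ℝ 2 μ :=
  (memLp_const c).toLp (fun _ => c)

theorem cst_ae (c : ℝ) : cst μ c =ᵐ[μ] fun _ => c := MemLp.coeFn_toLp _

theorem koop_cst (hU : MeasurePreserving U μ μ) (c : ℝ) : koop hU (cst μ c) = cst μ c := by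
  apply Lp.ext
  have h1 := koop_ae hU (cst μ c)
  have h2 := hU.quasiMeasurePreserving.ae_eq_comp (cst_ae (μ := μ) c)
  filter_upwards [h1, h2, cst_ae (μ := μ) c] with x hx1 hx2 hx3
  rw [hx1, hx2, hx3]
  rfl

theorem proj_eq (hU : Ergodic U μ) (g : Lp ℝ 2 μ) :
    (((koop hU.toMeasurePreserving).eqLocus (1 : Lp ℝ 2 μ →L[ℝ] Lp ℝ 2 μ)).orthogonalProjectionOnto
      g : Lp ℝ 2 μ) = cst μ (∫ x, g x ∂μ) := by
  set S := (koop hU.toMeasurePreserving).eqLocus (1 : Lp ℝ 2 μ →L[ℝ] Lp ℝ 2 μ) with hS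
  set P : Lp ℝ 2 μ := (S.orthogonalProjectionOnto g : Lp ℝ 2 μ) with hP
  have hPS : P ∈ S := (S.orthogonalProjectionOnto g).2
  have hfix : koop hU.toMeasurePreserving P = P := hPS
  have hae : (P : α → ℝ) ∘ U =ᵐ[μ] P := by
    have h1 := koop_ae hU.toMeasurePreserving P
    rw [hfix] at h1
    exact h1.symm
  obtain ⟨c, hc⟩ := hU.ae_eq_const_of_ae_eq_comp_ae (Lp.aestronglyMeasurable P) hae
  have hPc : P = cst μ c := by
    apply Lp.ext
    filter_upwards [hc, cst_ae (μ := μ) c] with x hx1 hx2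
    rw [hx1, hx2]
    rfl
  have h1S : cst μ 1 ∈ S := koop_cst hU.toMeasurePreserving 1
  have horth : inner ℝ (cst μ 1) (g - P) = 0 := by
    have h2 : g - S.starProjection g ∈ Sᗮ := Submodule.sub_starProjection_mem_orthogonal g
    exact (Submodule.mem_orthogonal S _).1 h2 _ h1S
  have hin : ∀ v : Lp ℝ 2 μ, inner ℝ (cst μ 1) v = ∫ x, v x ∂μ := by
    intro v
    rw [L2.inner_def]
    refine integral_congr_ae ?_
    filter_upwards [cst_ae (μ := μ) 1] with x hx
    rw [hx]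
    simp
  rw [inner_sub_right, hin, hin, hPc] at horth
  have h3 : ∫ x, cst μ c x ∂μ = c := by
    rw [integral_congr_ae (cst_ae (μ := μ) c)]
    simp
  rw [h3] at horth
  rw [hPc]
  congr 1
  linarith

theorem coeFn_sum (F : ℕ → Lp ℝ 2 μ) (n : ℕ) :
    ((∑ m ∈ Finset.range n, F m : Lp ℝ 2 μ) : α → ℝ) =ᵐ[μ] fun x => ∑ m ∈ Finset.range n, F m x := by
  induction n with
  | zero =>
    simp only [Finset.range_zero, Finset.sum_empty]
    exact Lp.coeFn_zero _ _ _
  | succ n ih =>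
    rw [Finset.sum_range_succ]
    filter_upwards [ih, Lp.coeFn_add (∑ m ∈ Finset.range n, F m) (F n)] with x hx1 hx2
    rw [hx2, Pi.add_apply, hx1, Finset.sum_range_succ]

theorem gVN : Pool.Agent.Helper57.SS.G_VN := by
  intro α _ μ _ U hU G hG
  set g : Lp ℝ 2 μ := hG.toLp G with hg
  have hgG : g =ᵐ[μ] G := MemLp.coeFn_toLp hG
  have hint : ∫ x, g x ∂μ = ∫ x, G x ∂μ := integral_congr_ae hgG
  have hK : ‖koop hU.toMeasurePreserving‖ ≤ 1 := LinearIsometry.norm_toContinuousLinearMap_le _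
  have h1 := (koop hU.toMeasurePreserving).tendsto_birkhoffAverage_orthogonalProjection hK g
  rw [proj_eq hU g, hint, Lp.tendsto_Lp_iff_tendsto_eLpNorm'] at h1
  refine h1.congr fun n => eLpNorm_congr_ae ?_
  have h2 : ∀ᵐ x ∂μ, ∀ m : ℕ, ((koop hU.toMeasurePreserving)^[m] g : Lp ℝ 2 μ) x = G (U^[m] x) := by
    rw [ae_all_iff]
    intro m
    have h3 := koop_iter hU.toMeasurePreserving g m
    have h4 := ((hU.toMeasurePreserving.iterate m).quasiMeasurePreserving).ae_eq_comp hgG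
    filter_upwards [h3, h4] with x hx1 hx2
    rw [hx1]
    exact hx2
  have h5 : (birkhoffAverage ℝ (koop hU.toMeasurePreserving) id n g : Lp ℝ 2 μ) =
      (n : ℝ)⁻¹ • ∑ m ∈ Finset.range n, (koop hU.toMeasurePreserving)^[m] g := rfl
  have h6 := Lp.coeFn_smul (n : ℝ)⁻¹
    (∑ m ∈ Finset.range n, (koop hU.toMeasurePreserving)^[m] g)
  have h7 := coeFn_sum (fun m => (koop hU.toMeasurePreserving)^[m] g) n
  filter_upwards [h2, h6, h7, cst_ae (μ := μ) (∫ x, G x ∂μ)] with x hx2 hx6 hx7 hx8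
  simp only [Pi.sub_apply]
  rw [h5, hx6, hx8, Pi.smul_apply, hx7]
  simp [hx2]

end Pool.Agent.Helper16.SS
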